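import Mathlib
import Pool.Agent.Helper80.KD.Leaf
import Pool.Agent.Helper80.KD.Tag

/-!
# The sum of the facts
-/

set_option autoImplicit false

namespace Pool.Agent.Helper54.KD

open Pool.Agent.Helper80.KD
open Pool.Agent.Helper80.TP (IM RD Item force force_eq comb)
open Pool.Agent.Helper80.TK (kM)

theorem comb_gen (P : Nat → Prop) (fin : Nat → Bool) (env : List Item)
    (hP : ∀ N, Item.f N ∈ env → ∀ w acc, P acc → P (acc + w * N)) :
    ∀ (k : Nat → Nat → Nat → Nat → Bool),
    (∀ n w r acc, P acc → k n w r acc = true → ∃ acc', P acc' ∧ fin acc' = true) →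
    ∀ n w r acc, P acc → comb fin env k n w r acc = true → ∃ acc', P acc' ∧ fin acc' = true := by
  induction env with
  | nil => exact fun k hk => hk
  | cons a l ih =>
    intro k hk
    refine ih (fun N hN => hP N (List.mem_cons_of_mem _ hN)) _ ?_
    intro n w r acc hacc h
    cases n with
    | succ m => exact hk m w r acc hacc h
    | zero =>
      cases a with
      | t N => exact Bool.noConfusion (show false = true from h)
      | f N =>
        have h3 : P (Nat.add acc (Nat.mul w N)) := hP N List.mem_cons_self w acc hacc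
        cases r with
        | zero => exact ⟨_, h3, h⟩
        | succ r => exact hk _ _ _ _ h3 h

/-- **the sum**: a property of the start which is stable under adding facts holds for the sum -/
theorem sumD_gen (P : Nat → Prop) {fin : Nat → Bool} {env : List Item} {w acc : Nat}
    (hP : ∀ N, Item.f N ∈ env → ∀ w acc, P acc → P (acc + w * N)) (h0 : P acc)
    (h : sumD fin env w acc = true) : ∃ acc', P acc' ∧ fin acc' = true := by
  unfold sumD at h
  obtain ⟨a, h1, h2⟩ := comb_gen P _ env hP _ (fun _ _ _ _ _ h => Bool.noConfusion h) _ _ _ _ h0 h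
  exact ⟨a, h1, h2⟩

/-- the combinations of facts plus `z` times the constant -/
def SZ (E : RD) (z acc : Nat) : Prop :=
  ∃ acc0 W C k M u, SD E acc0 W C k M u ∧ acc = acc0 + z * oneD (kM 256)

section

variable {W : ℝ} {E : RD} {cls : Fin 3 → Bool} {d : Fin 3 → ℝ} {lab : (Fin 3 → ℤ) → Fin 5}
  {env : List Item}

/-- **the sum of facts** -/
theorem sumD_sd (henv : ∀ i ∈ env, okI W E cls d lab i) {fin : Nat → Bool} {w : Nat}
    (h : sumD fin env w 0 = true) :
    ∃ acc, (∃ V C k M u, SD E acc V C k M u) ∧ fin acc = true := by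
  refine sumD_gen (fun acc => ∃ V C k M u, SD E acc V C k M u) ?_ ⟨_, _, _, _, _, sd_zero E⟩ h
  rintro N hN w acc ⟨V, C, k, M, u, h1⟩
  obtain ⟨D, l, L, v, h2⟩ : IsD E N := henv _ hN
  exact ⟨_, _, _, _, _, h1.comb w h2⟩

/-- **the sum of facts with a start** -/
theorem sumD_sz (henv : ∀ i ∈ env, okI W E cls d lab i) {fin : Nat → Bool} {w z : Nat}
    (h : sumD fin env w (Nat.mul z (oneD (kM 256))) = true) :
    ∃ acc, SZ E z acc ∧ fin acc = true := by
  refine sumD_gen (SZ E z) ?_ ⟨0, _, _, _, _, _, sd_zero E, ?_⟩ h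
  · rintro N hN w acc ⟨acc0, V, C, k, M, u, h1, h3⟩
    obtain ⟨D, l, L, v, h2⟩ : IsD E N := henv _ hN
    refine ⟨_, _, _, _, _, _, h1.comb w h2, ?_⟩
    rw [h3]
    ring
  · show z * oneD (kM 256) = 0 + z * oneD (kM 256)
    rw [Nat.zero_add]

end

end Pool.Agent.Helper54.KD
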